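import Mathlib

/-!
Unions of rotated and translated copies of the triangular lattice in the plane.
-/

set_option autoImplicit false

open Complex

namespace Pool.Agent.K9h2.Bilayer

/-- The complex number `1/2 + (√3/2) i`. -/
noncomputable def om : ℂ := ⟨1 / 2, Real.sqrt 3 / 2⟩

/-- The triangular lattice spanned by `1` and `1/2 + (√3/2) i`. -/
def Lat : Set ℂ := {z | ∃ m n : ℤ, z = m + n * om}

/-- The union of the sets `θ_i Λ + x_i`. -/
def TBG (k : ℕ) (x : Fin k → ℂ) (θ : Fin k → Circle) : Set ℂ :=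
  {z | ∃ i, ∃ l ∈ Lat, z = θ i * l + x i}

/-- Dense forests in the plane. -/
def IsDenseForest (D : Set ℂ) : Prop :=
  ∀ ε : ℝ, 0 < ε → ∃ V : ℝ, 0 < V ∧ ∀ a b : ℂ, dist a b = V →
    ∃ p ∈ D, ∃ s ∈ segment ℝ a b, dist p s < ε

/-- Uniformly discrete sets in the plane. -/
def IsUnifDiscrete (D : Set ℂ) : Prop :=
  ∃ r : ℝ, 0 < r ∧ ∀ p ∈ D, ∀ q ∈ D, p ≠ q → r ≤ dist p q

theorem om_re : om.re = 1 / 2 := rfl

theorem om_im : om.im = Real.sqrt 3 / 2 := rfl

theorem om_sq : om * om = om - 1 := by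
  have h3 : Real.sqrt 3 * Real.sqrt 3 = 3 := Real.mul_self_sqrt (by norm_num)
  apply Complex.ext
  · rw [mul_re, sub_re, om_re, om_im, one_re]
    nlinarith
  · rw [mul_im, sub_im, om_re, om_im, one_im]
    ring

theorem norm_om : ‖om‖ = 1 := by
  have h3 : Real.sqrt 3 * Real.sqrt 3 = 3 := Real.mul_self_sqrt (by norm_num)
  have h : Complex.normSq om = 1 := by
    rw [normSq_apply, om_re, om_im]
    nlinarith
  rw [Complex.norm_def, h, Real.sqrt_one]

theorem conj_om : (starRingEnd ℂ) om = 1 - om := by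
  apply Complex.ext
  · rw [conj_re, sub_re, om_re, one_re]; norm_num
  · rw [conj_im, sub_im, om_im, one_im]; ring

theorem one_mem : (1 : ℂ) ∈ Lat := ⟨1, 0, by simp⟩

theorem zero_mem : (0 : ℂ) ∈ Lat := ⟨0, 0, by simp⟩

theorem add_mem {a b : ℂ} (ha : a ∈ Lat) (hb : b ∈ Lat) : a + b ∈ Lat := by
  obtain ⟨m, n, rfl⟩ := ha
  obtain ⟨m', n', rfl⟩ := hb
  exact ⟨m + m', n + n', by push_cast; ring⟩

theorem neg_mem {a : ℂ} (ha : a ∈ Lat) : -a ∈ Lat := by
  obtain ⟨m, n, rfl⟩ := ha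
  exact ⟨-m, -n, by push_cast; ring⟩

theorem sub_mem {a b : ℂ} (ha : a ∈ Lat) (hb : b ∈ Lat) : a - b ∈ Lat := by
  rw [sub_eq_add_neg]
  exact add_mem ha (neg_mem hb)

theorem int_mem (m : ℤ) : (m : ℂ) ∈ Lat := ⟨m, 0, by simp⟩

theorem mul_mem {a b : ℂ} (ha : a ∈ Lat) (hb : b ∈ Lat) : a * b ∈ Lat := by
  obtain ⟨m, n, rfl⟩ := ha
  obtain ⟨m', n', rfl⟩ := hb
  refine ⟨m * m' - n * n', m * n' + n * m' + n * n', ?_⟩
  push_cast
  linear_combination (n : ℂ) * n' * om_sq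

theorem conj_mem {a : ℂ} (ha : a ∈ Lat) : (starRingEnd ℂ) a ∈ Lat := by
  obtain ⟨m, n, rfl⟩ := ha
  refine ⟨m + n, -n, ?_⟩
  rw [map_add, map_mul, conj_om]
  simp only [map_intCast]
  push_cast
  ring

/-- Every point is at distance at most `1` from the lattice. -/
theorem exists_near (z : ℂ) : ∃ l ∈ Lat, ‖z - l‖ ≤ 1 := by
  have h3 : 0 < Real.sqrt 3 := Real.sqrt_pos.2 (by norm_num)
  set t : ℝ := z.im / (Real.sqrt 3 / 2) with ht
  set s : ℝ := z.re - t / 2 with hs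
  have hz : z = s + t * om := by
    apply Complex.ext
    · rw [Complex.add_re, Complex.ofReal_re, Complex.re_ofReal_mul, om_re, hs]; ring
    · rw [Complex.add_im, Complex.ofReal_im, Complex.im_ofReal_mul, om_im, ht]
      field_simp
      ring
  refine ⟨round s + round t * om, ⟨round s, round t, rfl⟩, ?_⟩
  have e : z - (round s + round t * om) =
      ((s - round s : ℝ) : ℂ) + ((t - round t : ℝ) : ℂ) * om := by
    rw [hz]; push_cast; ring
  rw [e]
  calc ‖((s - round s : ℝ) : ℂ) + ((t - round t : ℝ) : ℂ) * om‖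
      ≤ ‖((s - round s : ℝ) : ℂ)‖ + ‖((t - round t : ℝ) : ℂ) * om‖ := norm_add_le _ _
    _ = |s - round s| + |t - round t| := by
        rw [norm_mul, norm_om, mul_one, Complex.norm_real, Complex.norm_real, Real.norm_eq_abs,
          Real.norm_eq_abs]
    _ ≤ 1 / 2 + 1 / 2 := add_le_add (abs_sub_round s) (abs_sub_round t)
    _ = 1 := by norm_num

theorem exists_near_mul (c z : ℂ) (hc : c ≠ 0) : ∃ l ∈ Lat, ‖z - c * l‖ ≤ ‖c‖ := by
  obtain ⟨l, hl, h⟩ := exists_near (z / c)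
  refine ⟨l, hl, ?_⟩
  have e : z - c * l = c * (z / c - l) := by field_simp
  rw [e, norm_mul]
  calc ‖c‖ * ‖z / c - l‖ ≤ ‖c‖ * 1 := mul_le_mul_of_nonneg_left h (norm_nonneg c)
    _ = ‖c‖ := mul_one _

/-- A subset of finitely many translates of one rotated and scaled lattice is not a dense
forest. -/
theorem not_forest_of_grid (c : ℂ) (hc : c ≠ 0) (k : ℕ) (y : Fin k → ℂ) (D : Set ℂ)
    (hD : ∀ z ∈ D, ∃ i, ∃ l ∈ Lat, z = c * l + y i) : ¬ IsDenseForest D := by
  intro hF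
  have h3 : 0 < Real.sqrt 3 := Real.sqrt_pos.2 (by norm_num)
  set U : Set ℝ := ⋃ i : Fin k, Set.range (fun n : ℤ => (n : ℝ) * (Real.sqrt 3 / 2) + (y i / c).im)
    with hU
  have hclosed : IsClosed U := by
    apply isClosed_iUnion_of_finite
    intro i
    have h1 : Set.range (fun n : ℤ => (n : ℝ) * (Real.sqrt 3 / 2) + (y i / c).im) =
        (fun t : ℝ => (t - (y i / c).im) / (Real.sqrt 3 / 2)) ⁻¹' (Set.range ((↑) : ℤ → ℝ)) := by
      ext t
      constructor
      · rintro ⟨n, rfl⟩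
        refine ⟨n, ?_⟩
        simp only [add_sub_cancel_right]
        field_simp
      · rintro ⟨n, hn⟩
        refine ⟨n, ?_⟩
        simp only at hn ⊢
        rw [hn]
        field_simp
        ring
    rw [h1]
    refine IsClosed.preimage ?_ Int.isClosedEmbedding_coe_real.isClosed_range
    fun_prop
  have hcount : U.Countable := Set.countable_iUnion fun i => Set.countable_range _
  obtain ⟨t, ht⟩ := (hcount.dense_compl ℝ).nonempty
  obtain ⟨δ, hδ, hball⟩ := Metric.isOpen_iff.1 hclosed.isOpen_compl t ht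
  have hc0 : 0 < ‖c‖ := norm_pos_iff.2 hc
  obtain ⟨V, hV, hseg⟩ := hF (δ * ‖c‖) (mul_pos hδ hc0)
  obtain ⟨p, hp, s, hs, hps⟩ := hseg (c * (t * I)) (c * ((V / ‖c‖ : ℝ) + t * I)) (by
    rw [dist_eq_norm, ← mul_sub, norm_mul]
    have : (t * I : ℂ) - ((V / ‖c‖ : ℝ) + t * I) = -((V / ‖c‖ : ℝ) : ℂ) := by ring
    rw [this, norm_neg, Complex.norm_real, Real.norm_eq_abs, abs_of_pos (div_pos hV hc0)]
    field_simp)
  have him : (s / c).im = t := by
    obtain ⟨α, β, _, _, hαβ, rfl⟩ := hs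
    have : (α • (c * (t * I)) + β • (c * ((V / ‖c‖ : ℝ) + t * I))) / c =
        ((β * (V / ‖c‖) : ℝ) : ℂ) + (((α + β) * t : ℝ) : ℂ) * I := by
      simp only [Complex.real_smul]
      push_cast
      field_simp
      ring
    rw [this, hαβ]
    simp
  obtain ⟨i, l, ⟨m, n, hl⟩, hpl⟩ := hD p hp
  have hpU : (p / c).im ∈ U := by
    rw [hU, Set.mem_iUnion]
    refine ⟨i, n, ?_⟩
    have : p / c = (m + n * om) + y i / c := by
      rw [hpl, hl]; field_simp
    simp only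
    rw [this]
    simp [om_re, om_im]
  have hpball : (p / c).im ∈ Metric.ball t δ := by
    rw [Metric.mem_ball, Real.dist_eq, ← him, ← Complex.sub_im, ← sub_div]
    calc |((p - s) / c).im| ≤ ‖(p - s) / c‖ := Complex.abs_im_le_norm _
      _ = ‖p - s‖ / ‖c‖ := norm_div _ _
      _ < δ := by
        rw [div_lt_iff₀ hc0, ← dist_eq_norm]
        exact hps
  exact hball hpball hpU

end Pool.Agent.K9h2.Bilayer
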