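import Pool.Agent.K9h2.TBG.Basic

/-!
A uniformly discrete union of rotated copies of the triangular lattice is contained in finitely
many translates of one lattice, so it is not a dense forest.
-/

set_option autoImplicit false

open Complex Filter Topology

namespace Pool.Agent.K9h2.Bilayer

/-- If `Λ + θ Λ` has no short nonzero vectors then an integer multiple of `θ` lies in `Λ`. -/
theorem exists_int_mul_mem (θ : ℂ) (r : ℝ) (hr : 0 < r)
    (h : ∀ a ∈ Lat, ∀ b ∈ Lat, a + θ * b ≠ 0 → r ≤ ‖a + θ * b‖) :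
    ∃ N : ℤ, N ≠ 0 ∧ (N : ℂ) * θ ∈ Lat := by
  choose l hl hl1 using fun n : ℕ => exists_near ((n : ℂ) * θ)
  have hmem : ∀ n : ℕ, (n : ℂ) * θ - l n ∈ Metric.closedBall (0 : ℂ) 1 := by
    intro n
    rw [Metric.mem_closedBall, dist_zero_right]
    exact hl1 n
  obtain ⟨a, _, φ, hφ, hlim⟩ := (isCompact_closedBall (0 : ℂ) 1).tendsto_subseq hmem
  have hc := hlim.cauchySeq
  obtain ⟨M, hM⟩ := Metric.cauchySeq_iff.1 hc r hr
  have h1 := hM M le_rfl (M + 1) (Nat.le_succ M)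
  have hlt : φ M < φ (M + 1) := hφ (Nat.lt_succ_self M)
  simp only [Function.comp_apply] at h1
  rw [dist_eq_norm] at h1
  have e : (φ M : ℂ) * θ - l (φ M) - ((φ (M + 1) : ℂ) * θ - l (φ (M + 1))) =
      (l (φ (M + 1)) - l (φ M)) + θ * (((φ M : ℤ) - (φ (M + 1) : ℤ) : ℤ) : ℂ) := by
    push_cast; ring
  rw [e] at h1
  have h2 : (l (φ (M + 1)) - l (φ M)) + θ * (((φ M : ℤ) - (φ (M + 1) : ℤ) : ℤ) : ℂ) = 0 := by
    by_contra hne
    have := h _ (sub_mem (hl (φ (M + 1))) (hl (φ M))) _ (int_mem _) hne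
    linarith
  refine ⟨(φ (M + 1) : ℤ) - (φ M : ℤ), by omega, ?_⟩
  have h3 : (((φ (M + 1) : ℤ) - (φ M : ℤ) : ℤ) : ℂ) * θ = l (φ (M + 1)) - l (φ M) := by
    have e2 : (((φ (M + 1) : ℤ) - (φ M : ℤ) : ℤ) : ℂ) * θ =
      (l (φ (M + 1)) - l (φ M)) - ((l (φ (M + 1)) - l (φ M)) +
        θ * (((φ M : ℤ) - (φ (M + 1) : ℤ) : ℤ) : ℂ)) := by
      push_cast; ring
    rw [e2, h2, sub_zero]
  rw [h3]
  exact sub_mem (hl _) (hl _)

theorem no_short (k : ℕ) (x : Fin k → ℂ) (θ : Fin k → Circle) (r : ℝ)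
    (hr : ∀ p ∈ TBG k x θ, ∀ q ∈ TBG k x θ, p ≠ q → r ≤ dist p q) (i j : Fin k)
    (a : ℂ) (ha : a ∈ Lat) (b : ℂ) (hb : b ∈ Lat)
    (hne : a + ((θ j : ℂ) / θ i) * b ≠ 0) : r ≤ ‖a + ((θ j : ℂ) / θ i) * b‖ := by
  by_contra hlt
  push Not at hlt
  have hi : (θ i : ℂ) ≠ 0 := Circle.coe_ne_zero _
  have hni : ‖(θ i : ℂ)‖ = 1 := Circle.norm_coe _
  set h : ℂ := a + ((θ j : ℂ) / θ i) * b with hh
  set z : ℂ := (x j - x i) / θ i with hz
  obtain ⟨l, hl, hl1⟩ := exists_near_mul h z hne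
  -- the points of the two copies attached to `l'`
  have key : ∀ l' ∈ Lat, ‖h * l' - z‖ < r → h * l' - z = 0 := by
    intro l' hl' hlt'
    by_contra hne'
    have hp : (θ i : ℂ) * (a * l') + x i ∈ TBG k x θ := ⟨i, a * l', mul_mem ha hl', rfl⟩
    have hq : (θ j : ℂ) * (-(b * l')) + x j ∈ TBG k x θ := ⟨j, -(b * l'),
      neg_mem (mul_mem hb hl'), rfl⟩
    have e : (θ i : ℂ) * (a * l') + x i - ((θ j : ℂ) * (-(b * l')) + x j) =
        θ i * (h * l' - z) := by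
      rw [hh, hz]; field_simp; ring
    have hpq : (θ i : ℂ) * (a * l') + x i ≠ (θ j : ℂ) * (-(b * l')) + x j := by
      intro hcon
      rw [hcon, sub_self] at e
      exact (mul_ne_zero hi hne') e.symm
    have h1 := hr _ hp _ hq hpq
    rw [dist_eq_norm, e, norm_mul, hni, one_mul] at h1
    linarith
  have h0 : h * l - z = 0 := by
    apply key l hl
    rw [norm_sub_rev]
    exact lt_of_le_of_lt hl1 hlt
  have h1 : h * (l + 1) - z = 0 := by
    apply key (l + 1) (add_mem hl one_mem)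
    have : h * (l + 1) - z = h := by
      have e : h * (l + 1) - z = (h * l - z) + h := by ring
      rw [e, h0, zero_add]
    rw [this]
    exact hlt
  apply hne
  have e : h = (h * (l + 1) - z) - (h * l - z) := by ring
  rw [e, h0, h1, sub_zero]

theorem not_unifDiscrete_forest (k : ℕ) (x : Fin k → ℂ) (θ : Fin k → Circle) :
    ¬ (IsUnifDiscrete (TBG k x θ) ∧ IsDenseForest (TBG k x θ)) := by
  rintro ⟨⟨r, hr, hD⟩, hF⟩
  rcases Nat.eq_zero_or_pos k with rfl | hk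
  · obtain ⟨V, hV, hs⟩ := hF 1 one_pos
    obtain ⟨p, ⟨i, _⟩, _⟩ := hs 0 V (by
      rw [dist_zero_left, Complex.norm_real, Real.norm_eq_abs, abs_of_pos hV])
    exact i.elim0
  set i0 : Fin k := ⟨0, hk⟩ with hi0
  have hex : ∀ j : Fin k, ∃ N : ℤ, N ≠ 0 ∧ (N : ℂ) * ((θ j : ℂ) / θ i0) ∈ Lat := by
    intro j
    exact exists_int_mul_mem _ r hr
      (fun a ha b hb hne => no_short k x θ r hD i0 j a ha b hb hne)
  choose N hN0 hN using hex
  have hθ0 : (θ i0 : ℂ) ≠ 0 := Circle.coe_ne_zero _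
  set P : ℤ := ∏ j, N j with hP
  have hP0 : P ≠ 0 := Finset.prod_ne_zero_iff.2 fun j _ => hN0 j
  have hPc : (P : ℂ) ≠ 0 := by exact_mod_cast hP0
  have hPmem : ∀ j, (P : ℂ) * ((θ j : ℂ) / θ i0) ∈ Lat := by
    intro j
    have : P = (∏ i ∈ Finset.univ.erase j, N i) * N j := by
      rw [hP, Finset.prod_erase_mul _ _ (Finset.mem_univ j)]
    rw [this]
    push_cast
    rw [mul_assoc]
    exact mul_mem (by exact_mod_cast int_mem (∏ i ∈ Finset.univ.erase j, N i)) (hN j)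
  refine not_forest_of_grid ((θ i0 : ℂ) / P) (div_ne_zero hθ0 hPc) k x (TBG k x θ) ?_ hF
  rintro z ⟨j, l, hl, rfl⟩
  refine ⟨j, ((P : ℂ) * ((θ j : ℂ) / θ i0)) * l, mul_mem (hPmem j) hl, ?_⟩
  field_simp

end Pool.Agent.K9h2.Bilayer
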