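import Pool.Agent.K9h2.TBG.Basic

/-!
Two copies of the triangular lattice, one rotated by `π/4`, form a dense forest.
-/

set_option autoImplicit false

open Complex Filter Topology

namespace Pool.Agent.K9h2.Bilayer

/-- A line whose direction is not parallel to a lattice vector comes close to the lattice. -/
theorem line_close (u : ℂ) (hu : ‖u‖ = 1)
    (hnp : ∀ l ∈ Lat, l ≠ 0 → (l * (starRingEnd ℂ) u).im ≠ 0) (y : ℂ) (ε : ℝ) (hε : 0 < ε) :
    ∃ s : ℝ, ∃ l ∈ Lat, ‖y + s * u - l‖ < ε := by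
  let S : AddSubgroup ℝ :=
    { carrier := {t | ∃ l ∈ Lat, (l * (starRingEnd ℂ) u).im = t}
      add_mem' := by
        rintro _ _ ⟨l, hl, rfl⟩ ⟨l', hl', rfl⟩
        exact ⟨l + l', add_mem hl hl', by rw [add_mul, add_im]⟩
      zero_mem' := ⟨0, zero_mem, by simp⟩
      neg_mem' := by
        rintro _ ⟨l, hl, rfl⟩
        exact ⟨-l, neg_mem hl, by rw [neg_mul, neg_im]⟩ }
  have huu : u * (starRingEnd ℂ) u = 1 := by
    rw [Complex.mul_conj, Complex.normSq_eq_norm_sq, hu]; norm_num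
  rcases AddSubgroup.dense_or_cyclic S with hd | ⟨γ, hγ⟩
  · obtain ⟨t, ht, l, hl, hlt⟩ := Metric.dense_iff.1 hd ((y * (starRingEnd ℂ) u).im) ε hε
    rw [Metric.mem_ball, Real.dist_eq] at ht
    refine ⟨-(((y - l) * (starRingEnd ℂ) u).re), l, hl, ?_⟩
    have e : y + ((-(((y - l) * (starRingEnd ℂ) u).re) : ℝ) : ℂ) * u - l =
        (((((y - l) * (starRingEnd ℂ) u).im : ℝ) : ℂ) * I) * u := by
      have h1 : (y - l) = ((y - l) * (starRingEnd ℂ) u) * u := by
        rw [mul_assoc, mul_comm ((starRingEnd ℂ) u) u, huu, mul_one]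
      have h2 := Complex.re_add_im ((y - l) * (starRingEnd ℂ) u)
      have h3 : (y - l) = ((((y - l) * (starRingEnd ℂ) u).re : ℂ) +
          (((y - l) * (starRingEnd ℂ) u).im : ℂ) * I) * u := by
        rw [h2]; exact h1
      push_cast
      linear_combination h3
    rw [e, norm_mul, hu, mul_one, norm_mul, Complex.norm_I, mul_one, Complex.norm_real,
      Real.norm_eq_abs, sub_mul, sub_im, hlt, abs_sub_comm]
    exact ht
  · exfalso
    have h1 : ((1 : ℂ) * (starRingEnd ℂ) u).im ∈ S := ⟨1, one_mem, rfl⟩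
    have h2 : (om * (starRingEnd ℂ) u).im ∈ S := ⟨om, ⟨0, 1, by simp⟩, rfl⟩
    rw [hγ, AddSubgroup.mem_closure_singleton] at h1 h2
    obtain ⟨p, hp⟩ := h1
    obtain ⟨q, hq⟩ := h2
    rw [zsmul_eq_mul] at hp hq
    -- `q * 1 - p * om` is sent to `0`
    have hz : (((q : ℂ) - p * om) * (starRingEnd ℂ) u).im = 0 := by
      have e : ((q : ℂ) - p * om) * (starRingEnd ℂ) u =
          ((q : ℝ) : ℂ) * (1 * (starRingEnd ℂ) u) - ((p : ℝ) : ℂ) * (om * (starRingEnd ℂ) u) := by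
        push_cast; ring
      rw [e, sub_im, im_ofReal_mul, im_ofReal_mul, ← hp, ← hq]
      ring
    have hmem : (q : ℂ) - p * om ∈ Lat := ⟨q, -p, by push_cast; ring⟩
    have h0 : (q : ℂ) - p * om = 0 := by
      by_contra hne
      exact hnp _ hmem hne hz
    have hp0 : p = 0 := by
      have := congrArg Complex.im h0
      rw [sub_im, intCast_im, zero_im, zero_sub, neg_eq_zero] at this
      have e : ((p : ℂ) * om).im = (p : ℝ) * (Real.sqrt 3 / 2) := by
        rw [← om_im]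
        have : (p : ℂ) = ((p : ℝ) : ℂ) := by push_cast; rfl
        rw [this, im_ofReal_mul]
      rw [e] at this
      have h3 : 0 < Real.sqrt 3 := Real.sqrt_pos.2 (by norm_num)
      rcases mul_eq_zero.1 this with h | h
      · exact_mod_cast h
      · linarith
    rw [hp0] at hp
    apply hnp 1 one_mem one_ne_zero
    rw [← hp]
    simp

/-- Rotation by `π/4`. -/
noncomputable def rot : Circle := Circle.exp (Real.pi / 4)

theorem rot_coe : (rot : ℂ) = ((Real.sqrt 2 / 2 : ℝ) : ℂ) * (1 + I) := by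
  unfold rot
  rw [Circle.coe_exp, Complex.exp_mul_I]
  have h1 : Complex.cos ((Real.pi / 4 : ℝ) : ℂ) = ((Real.sqrt 2 / 2 : ℝ) : ℂ) := by
    rw [← Complex.ofReal_cos, Real.cos_pi_div_four]
  have h2 : Complex.sin ((Real.pi / 4 : ℝ) : ℂ) = ((Real.sqrt 2 / 2 : ℝ) : ℂ) := by
    rw [← Complex.ofReal_sin, Real.sin_pi_div_four]
  rw [h1, h2]
  ring

theorem rot_mul_im {w : ℂ} (hw : w ∈ Lat) (h : ((rot : ℂ) * w).im = 0) : w = 0 := by
  obtain ⟨m, n, rfl⟩ := hw
  have h2 : 0 < Real.sqrt 2 := Real.sqrt_pos.2 (by norm_num)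
  have e : ((rot : ℂ) * (m + n * om)).im =
      (Real.sqrt 2 / 2) * ((m : ℝ) + n * (1 / 2) + n * (Real.sqrt 3 / 2)) := by
    rw [rot_coe, mul_assoc, im_ofReal_mul]
    congr 1
    have e1 : (1 + I) * ((m : ℂ) + n * om) =
        ((m : ℝ) : ℂ) + ((m : ℝ) : ℂ) * I + ((n : ℝ) : ℂ) * om + ((n : ℝ) : ℂ) * (I * om) := by
      push_cast; ring
    rw [e1, add_im, add_im, add_im, ofReal_im, im_ofReal_mul, im_ofReal_mul, im_ofReal_mul,
      I_im, om_im, I_mul_im, om_re]
    ring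
  rw [e] at h
  have h3 : (m : ℝ) + n * (1 / 2) + n * (Real.sqrt 3 / 2) = 0 := by
    rcases mul_eq_zero.1 h with h' | h'
    · linarith
    · exact h'
  have hn : n = 0 := by
    by_contra hn
    have hn' : (n : ℝ) ≠ 0 := by exact_mod_cast hn
    have hirr : Irrational (Real.sqrt 3) := by
      have := Nat.Prime.irrational_sqrt (p := 3) (by norm_num)
      exact_mod_cast this
    apply hirr
    refine ⟨(-(2 * m + n : ℤ) : ℚ) / n, ?_⟩
    push_cast
    rw [div_eq_iff hn']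
    linarith
  have hm : m = 0 := by
    rw [hn] at h3
    simp at h3
    exact_mod_cast h3
  rw [hn, hm]
  simp

/-- The angles of the two copies. -/
noncomputable def ang : Fin 2 → Circle := ![1, rot]

theorem mem_left {l : ℂ} (hl : l ∈ Lat) : l ∈ TBG 2 0 ang :=
  ⟨0, l, hl, by simp [ang]⟩

theorem mem_right {l : ℂ} (hl : l ∈ Lat) : (rot : ℂ) * l ∈ TBG 2 0 ang :=
  ⟨1, l, hl, by simp [ang]⟩

theorem forest_two : IsDenseForest (TBG 2 0 ang) := by
  intro ε hε
  by_contra hcon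
  push Not at hcon
  have hrot0 : (rot : ℂ) ≠ 0 := Circle.coe_ne_zero _
  have hrotn : ‖(rot : ℂ)‖ = 1 := Circle.norm_coe _
  choose a b hab hfar using fun n : ℕ => hcon ((n : ℝ) + 1) (by positivity)
  -- direction and midpoint
  let u : ℕ → ℂ := fun n => (b n - a n) / ((n : ℝ) + 1 : ℝ)
  let c : ℕ → ℂ := fun n => (a n + b n) / 2
  have hu : ∀ n, ‖u n‖ = 1 := by
    intro n
    have hpos : (0 : ℝ) < (n : ℝ) + 1 := by positivity
    show ‖(b n - a n) / ((n : ℝ) + 1 : ℝ)‖ = 1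
    rw [norm_div, Complex.norm_real, Real.norm_eq_abs, abs_of_pos hpos, ← dist_eq_norm, dist_comm,
      hab n, div_self hpos.ne']
  have hseg : ∀ (n : ℕ) (s : ℝ), |s| ≤ ((n : ℝ) + 1) / 2 → c n + s * u n ∈ segment ℝ (a n) (b n) := by
    intro n s hs
    have hpos : (0 : ℝ) < (n : ℝ) + 1 := by positivity
    have hposc : (((n : ℝ) + 1 : ℝ) : ℂ) ≠ 0 := by exact_mod_cast hpos.ne'
    obtain ⟨h1, h2⟩ := abs_le.1 hs
    refine ⟨1 / 2 - s / ((n : ℝ) + 1), 1 / 2 + s / ((n : ℝ) + 1), ?_, ?_, by ring, ?_⟩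
    · have : s / ((n : ℝ) + 1) ≤ 1 / 2 := by
        rw [div_le_iff₀ hpos]; linarith
      linarith
    · have : -(1 / 2) ≤ s / ((n : ℝ) + 1) := by
        rw [le_div_iff₀ hpos]; linarith
      linarith
    · simp only [Complex.real_smul]
      show _ = (a n + b n) / 2 + s * ((b n - a n) / (((n : ℝ) + 1 : ℝ) : ℂ))
      push_cast
      push_cast at hposc
      field_simp
      ring
  choose l hl hl1 using fun n : ℕ => exists_near (c n)
  choose m hm hm1 using fun n : ℕ => exists_near (c n / (rot : ℂ))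
  have hK : IsCompact ((Metric.closedBall (0 : ℂ) 1) ×ˢ ((Metric.closedBall (0 : ℂ) 1) ×ˢ
      (Metric.sphere (0 : ℂ) 1))) :=
    (isCompact_closedBall _ _).prod ((isCompact_closedBall _ _).prod (isCompact_sphere _ _))
  have hmem : ∀ n, (c n - l n, c n / (rot : ℂ) - m n, u n) ∈
      ((Metric.closedBall (0 : ℂ) 1) ×ˢ ((Metric.closedBall (0 : ℂ) 1) ×ˢ
      (Metric.sphere (0 : ℂ) 1))) := by
    intro n
    refine ⟨?_, ?_, ?_⟩
    · simpa [dist_eq_norm] using hl1 n
    · simpa [dist_eq_norm] using hm1 n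
    · simpa [dist_eq_norm] using hu n
  obtain ⟨⟨y1, y2, v⟩, hyv, φ, hφ, hlim⟩ := hK.tendsto_subseq hmem
  have hv : ‖v‖ = 1 := by
    have := hyv.2.2
    simpa [dist_eq_norm] using this
  have lim1 : Tendsto (fun n => c (φ n) - l (φ n)) atTop (𝓝 y1) :=
    (continuous_fst.tendsto _).comp hlim
  have lim2 : Tendsto (fun n => c (φ n) / (rot : ℂ) - m (φ n)) atTop (𝓝 y2) :=
    ((continuous_fst.comp continuous_snd).tendsto _).comp hlim
  have lim3 : Tendsto (fun n => u (φ n)) atTop (𝓝 v) :=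
    ((continuous_snd.comp continuous_snd).tendsto _).comp hlim
  have hev : ∀ s : ℝ, ∀ᶠ n in atTop, |s| ≤ ((φ n : ℝ) + 1) / 2 := by
    intro s
    obtain ⟨M, hM⟩ := exists_nat_ge (2 * |s|)
    filter_upwards [eventually_ge_atTop M] with n hn
    have h1 : (M : ℝ) ≤ n := by exact_mod_cast hn
    have h2 : (n : ℝ) ≤ φ n := by exact_mod_cast hφ.id_le n
    linarith
  have far1 : ∀ (s : ℝ) (k : ℂ), k ∈ Lat → ε ≤ ‖y1 + s * v - k‖ := by
    intro s k hk
    have ht : Tendsto (fun n => ‖(c (φ n) - l (φ n)) + s * u (φ n) - k‖) atTop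
        (𝓝 ‖y1 + s * v - k‖) :=
      ((lim1.add (lim3.const_mul _)).sub_const k).norm
    refine ge_of_tendsto ht ?_
    filter_upwards [hev s] with n hn
    have h1 := hfar (φ n) _ (mem_left (add_mem hk (hl (φ n)))) _ (hseg (φ n) s hn)
    rw [dist_comm, dist_eq_norm] at h1
    have e : c (φ n) + s * u (φ n) - (k + l (φ n)) =
        (c (φ n) - l (φ n)) + s * u (φ n) - k := by ring
    rwa [e] at h1
  have far2 : ∀ (s : ℝ) (k : ℂ), k ∈ Lat → ε ≤ ‖y2 + s * (v / rot) - k‖ := by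
    intro s k hk
    have ht : Tendsto (fun n => ‖(c (φ n) / (rot : ℂ) - m (φ n)) + s * (u (φ n) / rot) - k‖) atTop
        (𝓝 ‖y2 + s * (v / rot) - k‖) :=
      ((lim2.add ((lim3.div_const _).const_mul _)).sub_const k).norm
    refine ge_of_tendsto ht ?_
    filter_upwards [hev s] with n hn
    have h1 := hfar (φ n) _ (mem_right (add_mem hk (hm (φ n)))) _ (hseg (φ n) s hn)
    rw [dist_comm, dist_eq_norm] at h1
    have e : c (φ n) + s * u (φ n) - (rot : ℂ) * (k + m (φ n)) =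
        (rot : ℂ) * ((c (φ n) / (rot : ℂ) - m (φ n)) + s * (u (φ n) / rot) - k) := by
      field_simp
      ring
    rw [e, norm_mul, hrotn, one_mul] at h1
    exact h1
  -- both directions are rational
  have r1 : ∃ l1 ∈ Lat, l1 ≠ 0 ∧ (l1 * (starRingEnd ℂ) v).im = 0 := by
    by_contra hno
    push Not at hno
    obtain ⟨s, k, hk, hlt⟩ := line_close v hv hno y1 ε hε
    have := far1 s k hk
    linarith
  have hv2 : ‖v / (rot : ℂ)‖ = 1 := by rw [norm_div, hv, hrotn, div_one]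
  have r2 : ∃ l2 ∈ Lat, l2 ≠ 0 ∧ (l2 * (starRingEnd ℂ) (v / (rot : ℂ))).im = 0 := by
    by_contra hno
    push Not at hno
    obtain ⟨s, k, hk, hlt⟩ := line_close (v / (rot : ℂ)) hv2 hno y2 ε hε
    have := far2 s k hk
    linarith
  obtain ⟨l1, hl1m, hl10, hl1i⟩ := r1
  obtain ⟨l2, hl2m, hl20, hl2i⟩ := r2
  have hvv : v * (starRingEnd ℂ) v = 1 := by
    rw [Complex.mul_conj, Complex.normSq_eq_norm_sq, hv]; norm_num
  have hrr : (rot : ℂ) * (starRingEnd ℂ) (rot : ℂ) = 1 := by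
    rw [Complex.mul_conj, Complex.normSq_eq_norm_sq, hrotn]; norm_num
  have hw : l2 * (starRingEnd ℂ) l1 ∈ Lat := mul_mem hl2m (conj_mem hl1m)
  have hzero : l2 * (starRingEnd ℂ) l1 = 0 := by
    apply rot_mul_im hw
    -- rot * l2 * conj l1 = (l2 * conj (v / rot)) * conj (l1 * conj v)
    have e : (rot : ℂ) * (l2 * (starRingEnd ℂ) l1) =
        (l2 * (starRingEnd ℂ) (v / (rot : ℂ))) * (starRingEnd ℂ) (l1 * (starRingEnd ℂ) v) := by
      have hrc : (starRingEnd ℂ) (rot : ℂ) ≠ 0 := by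
        rw [Ne, map_eq_zero]; exact hrot0
      rw [map_div₀, map_mul, Complex.conj_conj]
      field_simp
      linear_combination ((starRingEnd ℂ) l1) * hrr - ((starRingEnd ℂ) l1) * hvv
    rw [e, mul_im, hl2i, conj_im, hl1i]
    ring
  rcases mul_eq_zero.1 hzero with h | h
  · exact hl20 h
  · exact hl10 ((map_eq_zero _).1 h)

theorem isLeast_two :
    IsLeast {k : ℕ | 1 ≤ k ∧ ∃ (x : Fin k → ℂ) (θ : Fin k → Circle), IsDenseForest (TBG k x θ)}
      2 := by
  constructor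
  · exact ⟨by norm_num, 0, ang, forest_two⟩
  · rintro k ⟨hk1, x, θ, hF⟩
    by_contra hlt
    have hk : k = 1 := by omega
    subst hk
    refine not_forest_of_grid (θ 0 : ℂ) (Circle.coe_ne_zero _) 1 x (TBG 1 x θ) ?_ hF
    rintro z ⟨i, l, hl, rfl⟩
    have hi : i = 0 := Subsingleton.elim _ _
    exact ⟨0, l, hl, by rw [hi]⟩

end Pool.Agent.K9h2.Bilayer
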